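import Mathlib
import Pool.Agent.V1139.NA.Lin
import Pool.Agent.TH456.TM.Close

/-!
# Digits of polynomials in `π` and zeta values, each polynomial in its own base

`N_b(x; L)` is the least order of a linear recurrence over `ℚ` for the first `L` digits of `x` in
base `b`; it is bounded in `L` if and only if `x` is rational. `Small ν K Λ x`:
`N_b(x; L) log b < ν Λ` for some base `b` and some `L` with `K log b ≤ Λ ≤ L log b`.

Polynomials `P` have degree at most `D`, integer coefficients at most `exp (δ Λ)`, and they are divided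
by a natural number `E ≤ exp (δ Λ)`; `ν` depends only on `r` and `D`, and `K`, `δ` only on `r`, `D`, `T`.

(1) For all real `t_1, …, t_r` in `[-T, T]` and every scale `Λ` there are algebraic functions
    `y_1, …, y_r` of one variable `X` such that `P(X, y)` is a rational constant for every `P` such that
    `P(π, t) / E` has the property `Small`.
(2) For zeta values `t_i = ζ(s_i)` the numbers `K`, `δ` depend only on `r` and `D`.
(3) `r = 1`: there is one irreducible `F(X, Y)` which divides all these `P` up to rational constants.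
(4) The forms `R(π) + ∑ c_i(π) t_i` with the property `Small` are in a group `N`; if `(R, 0)` is in
    `N`, then `R` is constant.
(5) The exponents `(a, b)` of the numbers `(A / E) π^a ∏ t_i^(b_i)` with the property `Small` are in a
    group `M`; if `(a, 0)` is in `M`, then `a = 0`. So `M` has rank at most `r`.
(6) The same for zeta values `t_i = ζ(s_i)`, uniformly in the `s_i`.
(7) At every scale `Λ` there is one rational number `ρ` such that `a = ρ b` for all the numbers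
    `(A / E) π^a ζ(s)^b` with the property `Small`; uniformly in `s ≥ 2`.
-/

set_option autoImplicit false

namespace Pool.Agent.Results.MP_a89d6d_nt.DigitsInOwnBases

open Finset Polynomial

/-- the `i`-th digit of `x` after the point in base `b` -/
noncomputable def digit (b : ℕ) (x : ℝ) (i : ℕ) : ℤ := ⌊x * (b : ℝ) ^ i⌋ % (b : ℤ)

/-- The terms `s_1, …, s_L` satisfy the linear recurrence
`s_(i+m) = c_0 s_i + … + c_(m-1) s_(i+m-1)` for `1 ≤ i ≤ L - m`. -/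
def Recurrence (s : ℕ → ℤ) (c : ℕ → ℚ) (L m : ℕ) : Prop :=
  ∀ i : ℕ, 1 ≤ i → i + m ≤ L → (s (i + m) : ℚ) = ∑ j ∈ range m, c j * (s (i + j) : ℚ)

/-- the linear complexity of the first `L` digits of `x` in base `b` -/
noncomputable def complexity (b : ℕ) (x : ℝ) (L : ℕ) : ℕ :=
  sInf {m | ∃ c : ℕ → ℚ, Recurrence (digit b x) c L m}

/-- `x` has linear complexity less than `ν Λ / log b` at the scale `Λ` in some base `b` which is not
too large, for some number `L ≥ Λ / log b` of digits -/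
def Small (ν K Λ x : ℝ) : Prop :=
  ∃ b L : ℕ, 2 ≤ b ∧ K * Real.log b ≤ Λ ∧ Λ ≤ L * Real.log b ∧
    complexity b x L * Real.log b < ν * Λ

/-- the field of the algebraic functions of one variable `X` (over the rational numbers) -/
abbrev AlgFun : Type := AlgebraicClosure (FractionRing ℤ[X])

/-- a polynomial in `X` as an algebraic function -/
noncomputable def fn : ℤ[X] →+* AlgFun :=
  (algebraMap (FractionRing ℤ[X]) AlgFun).comp (algebraMap ℤ[X] (FractionRing ℤ[X]))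

/-- a polynomial `P` in `Y_1, …, Y_r` with coefficients in `ℤ[X]`: total degree in the `Y_i`, and
degree in `X`, at most `D`, all coefficients at most `H` in absolute value -/
def Bounded {r : ℕ} (D : ℕ) (H : ℝ) (P : MvPolynomial (Fin r) ℤ[X]) : Prop :=
  P.totalDegree ≤ D ∧ ∀ m, (P.coeff m).natDegree ≤ D ∧ ∀ i, |((P.coeff m).coeff i : ℝ)| ≤ H

/-- the real number `P(π, t_1, …, t_r)` -/
noncomputable def value {r : ℕ} (t : Fin r → ℝ) (P : MvPolynomial (Fin r) ℤ[X]) : ℝ :=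
  P.eval₂ (aeval Real.pi : ℤ[X] →ₐ[ℤ] ℝ).toRingHom t

/-- the algebraic function `P(X, y_1, …, y_r)` -/
noncomputable def onFun {r : ℕ} (y : Fin r → AlgFun) (P : MvPolynomial (Fin r) ℤ[X]) : AlgFun :=
  P.eval₂ fn y

/-- the real number `P(π, t)` for a polynomial in `Y` with coefficients in `ℤ[X]` -/
noncomputable def value₁ (t : ℝ) (P : ℤ[X][X]) : ℝ :=
  P.eval₂ (aeval Real.pi : ℤ[X] →ₐ[ℤ] ℝ).toRingHom t

/-- an integer and a positive integer, at most `H`, the first one different from `0` -/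
def Ratio (H : ℝ) (A : ℤ) (E : ℕ) : Prop := A ≠ 0 ∧ |(A : ℝ)| ≤ H ∧ 1 ≤ E ∧ (E : ℝ) ≤ H

/-- the number `ζ(s)` -/
noncomputable def zeta (s : ℕ) : ℝ := ∑' n : ℕ, 1 / ((n : ℝ) + 1) ^ s

lemma summable_zeta (s : ℕ) (hs : 2 ≤ s) : Summable fun n : ℕ => 1 / ((n : ℝ) + 1) ^ s := by
  have h1 := (Real.summable_one_div_nat_pow (p := s)).2 (by omega)
  have h2 := (summable_nat_add_iff 1).2 h1
  refine h2.congr fun n => ?_
  push_cast
  rfl

lemma zeta_le (s : ℕ) (hs : 2 ≤ s) : |zeta s| ≤ zeta 2 := by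
  have h0 : 0 ≤ zeta s := tsum_nonneg fun n => by positivity
  rw [abs_of_nonneg h0]
  refine (summable_zeta s hs).tsum_le_tsum (fun n => ?_) (summable_zeta 2 le_rfl)
  have h1 : (1 : ℝ) ≤ (n : ℝ) + 1 := by
    have : (0 : ℝ) ≤ n := Nat.cast_nonneg n
    linarith
  exact one_div_le_one_div_of_le (by positivity) (pow_le_pow_right₀ h1 hs)

lemma one_le_zeta (s : ℕ) (hs : 2 ≤ s) : 1 ≤ zeta s := by
  have h1 := (summable_zeta s hs).le_tsum 0 fun n _ => by positivity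
  have h2 : (1 : ℝ) / (((0 : ℕ) : ℝ) + 1) ^ s = 1 := by simp
  rw [h2] at h1
  exact h1

lemma zeta_inv (s : ℕ) (hs : 2 ≤ s) : (zeta 2)⁻¹ ≤ |zeta s| := by
  have h1 := one_le_zeta s hs
  have h2 := one_le_zeta 2 le_rfl
  rw [abs_of_nonneg (by linarith)]
  exact (inv_le_one_of_one_le₀ h2).trans h1

lemma const_of {z : AlgFun} {q : ℕ} {p : ℤ} (hq : 1 ≤ q) (h : (q : AlgFun) * z = p) :
    ∃ c : ℚ, z = c := Pool.Agent.V1139.NA.isConst_of_mul hq h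

open Pool.Agent.V1139.NA in
/-- **Digits of polynomials in `π` and arbitrary numbers (odd zeta values), in own bases.** -/
theorem result :
    -- (1) polynomials
    (∀ r D : ℕ, ∃ ν : ℝ, 0 < ν ∧ ∀ T : ℝ, ∃ K δ : ℝ, 0 < K ∧ 0 < δ ∧ ∀ t : Fin r → ℝ,
      (∀ i, |t i| ≤ T) → ∀ Λ : ℝ, ∃ y : Fin r → AlgFun,
        ∀ (P : MvPolynomial (Fin r) ℤ[X]) (E : ℕ), Bounded D (Real.exp (δ * Λ)) P → 1 ≤ E →
          (E : ℝ) ≤ Real.exp (δ * Λ) → Small ν K Λ (value t P / E) → ∃ c : ℚ, onFun y P = c) ∧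
    -- (2) polynomials in `π` and zeta values, uniformly
    (∀ r D : ℕ, ∃ ν K δ : ℝ, 0 < ν ∧ 0 < K ∧ 0 < δ ∧ ∀ s : Fin r → ℕ, (∀ i, 2 ≤ s i) →
      ∀ Λ : ℝ, ∃ y : Fin r → AlgFun, ∀ (P : MvPolynomial (Fin r) ℤ[X]) (E : ℕ),
        Bounded D (Real.exp (δ * Λ)) P → 1 ≤ E → (E : ℝ) ≤ Real.exp (δ * Λ) →
        Small ν K Λ (value (fun i => zeta (s i)) P / E) → ∃ c : ℚ, onFun y P = c) ∧
    -- (3) one number
    (∀ D : ℕ, ∃ ν : ℝ, 0 < ν ∧ ∀ T : ℝ, ∃ K δ : ℝ, 0 < K ∧ 0 < δ ∧ ∀ t : ℝ, |t| ≤ T → ∀ Λ : ℝ,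
      ∃ F : ℤ[X][X], Irreducible F ∧ 0 < F.natDegree ∧ ∀ (P : ℤ[X][X]) (E : ℕ),
        P.natDegree ≤ D → (∀ j, (P.coeff j).natDegree ≤ D) →
        (∀ j i, |((P.coeff j).coeff i : ℝ)| ≤ Real.exp (δ * Λ)) → 1 ≤ E →
        (E : ℝ) ≤ Real.exp (δ * Λ) → Small ν K Λ (value₁ t P / E) →
        ∃ (q : ℕ) (p : ℤ), 1 ≤ q ∧ F ∣ (q : ℤ[X][X]) * P - (p : ℤ[X][X])) ∧
    -- (4) linear forms with coefficients in `ℤ[π]`
    (∀ r D : ℕ, 1 ≤ D → ∃ ν : ℝ, 0 < ν ∧ ∀ T : ℝ, ∃ K δ : ℝ, 0 < K ∧ 0 < δ ∧ ∀ t : Fin r → ℝ,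
      (∀ i, |t i| ≤ T) → ∀ Λ : ℝ, ∃ N : AddSubgroup (ℤ[X] × (Fin r → ℤ[X])),
        (∀ R : ℤ[X], (R, (0 : Fin r → ℤ[X])) ∈ N → R.natDegree = 0) ∧
        ∀ (R : ℤ[X]) (c : Fin r → ℤ[X]) (E : ℕ), R.natDegree ≤ D → (∀ i, (c i).natDegree ≤ D) →
          (∀ k, |(R.coeff k : ℝ)| ≤ Real.exp (δ * Λ)) →
          (∀ i k, |((c i).coeff k : ℝ)| ≤ Real.exp (δ * Λ)) → 1 ≤ E →
          (E : ℝ) ≤ Real.exp (δ * Λ) →
          Small ν K Λ ((aeval Real.pi R + ∑ i, aeval Real.pi (c i) * t i) / E) → (R, c) ∈ N) ∧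
    -- (5) monomials
    (∀ r D : ℕ, ∃ ν : ℝ, 0 < ν ∧ ∀ T : ℝ, 1 ≤ T → ∃ K δ : ℝ, 0 < K ∧ 0 < δ ∧ ∀ t : Fin r → ℝ,
      (∀ i, T⁻¹ ≤ |t i| ∧ |t i| ≤ T) → ∀ Λ : ℝ, ∃ M : AddSubgroup (ℤ × (Fin r → ℤ)),
        (∀ a : ℤ, (a, (0 : Fin r → ℤ)) ∈ M → a = 0) ∧
        ∀ (a : ℤ) (b : Fin r → ℤ) (A : ℤ) (E : ℕ), |a| ≤ D → (∀ i, |b i| ≤ D) →
          Ratio (Real.exp (δ * Λ)) A E →
          Small ν K Λ (A * (Real.pi ^ a * ∏ i, t i ^ b i) / E) → (a, b) ∈ M) ∧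
    -- (6) monomials in `π` and zeta values, uniformly
    (∀ r D : ℕ, ∃ ν K δ : ℝ, 0 < ν ∧ 0 < K ∧ 0 < δ ∧ ∀ s : Fin r → ℕ, (∀ i, 2 ≤ s i) →
      ∀ Λ : ℝ, ∃ M : AddSubgroup (ℤ × (Fin r → ℤ)),
        (∀ a : ℤ, (a, (0 : Fin r → ℤ)) ∈ M → a = 0) ∧
        ∀ (a : ℤ) (b : Fin r → ℤ) (A : ℤ) (E : ℕ), |a| ≤ D → (∀ i, |b i| ≤ D) →
          Ratio (Real.exp (δ * Λ)) A E →
          Small ν K Λ (A * (Real.pi ^ a * ∏ i, zeta (s i) ^ b i) / E) → (a, b) ∈ M) ∧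
    -- (7) monomials in `π` and one zeta value
    (∀ D : ℕ, ∃ ν K δ : ℝ, 0 < ν ∧ 0 < K ∧ 0 < δ ∧ ∀ s : ℕ, 2 ≤ s → ∀ Λ : ℝ, ∃ ρ : ℚ,
      ∀ (a b A : ℤ) (E : ℕ), |a| ≤ D → |b| ≤ D → Ratio (Real.exp (δ * Λ)) A E →
        Small ν K Λ (A * (Real.pi ^ a * zeta s ^ b) / E) → (a : ℚ) = ρ * b) := by
  have hπ := Pool.Agent.TH456.TM.measT_pi
  have hπ0 := Real.pi_ne_zero
  have hz2 := one_le_zeta 2 le_rfl
  refine ⟨fun r D => ?_, fun r D => ?_, fun D => one_irr _ hπ D, fun r D hD =>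
    forms_poly _ hπ r D hD, fun r D => ?_, fun r D => ?_, fun D => ?_⟩
  · obtain ⟨ν, hν, h⟩ := digits_core Pool.Agent.V11210.NA.fn Pool.Agent.V11210.NA.fn_inj
      Real.pi hπ r D
    refine ⟨ν, hν, fun T => ?_⟩
    obtain ⟨K, δ, hK, hδ, h⟩ := h T
    refine ⟨K, δ, hK, hδ, fun t ht Λ => ?_⟩
    obtain ⟨y, -, hy⟩ := h t ht Λ
    refine ⟨y, fun P E hP hE1 hE hs => ?_⟩
    obtain ⟨q, p, hq, hqp⟩ := hy P E hP hE1 hE hs
    exact const_of hq hqp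
  · obtain ⟨ν, hν, h⟩ := digits_core Pool.Agent.V11210.NA.fn Pool.Agent.V11210.NA.fn_inj
      Real.pi hπ r D
    obtain ⟨K, δ, hK, hδ, h⟩ := h (zeta 2)
    refine ⟨ν, K, δ, hν, hK, hδ, fun s hs Λ => ?_⟩
    obtain ⟨y, -, hy⟩ := h (fun i => zeta (s i)) (fun i => zeta_le _ (hs i)) Λ
    refine ⟨y, fun P E hP hE1 hE hs => ?_⟩
    obtain ⟨q, p, hq, hqp⟩ := hy P E hP hE1 hE hs
    exact const_of hq hqp
  · obtain ⟨ν, hν, h⟩ := mono _ hπ hπ0 r D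
    refine ⟨ν, hν, fun T hT => ?_⟩
    obtain ⟨K, δ, hK, hδ, h⟩ := h T hT
    refine ⟨K, δ, hK, hδ, fun t ht Λ => ?_⟩
    obtain ⟨M, hM0, hM⟩ := h t ht Λ
    exact ⟨M, hM0, fun a b A E ha hb hAE hs => hM a b A E ha hb hAE.1 hAE.2.1 hAE.2.2.1
      hAE.2.2.2 hs⟩
  · obtain ⟨ν, hν, h⟩ := mono _ hπ hπ0 r D
    obtain ⟨K, δ, hK, hδ, h⟩ := h (zeta 2) hz2
    refine ⟨ν, K, δ, hν, hK, hδ, fun s hs Λ => ?_⟩
    obtain ⟨M, hM0, hM⟩ := h (fun i => zeta (s i))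
      (fun i => ⟨zeta_inv _ (hs i), zeta_le _ (hs i)⟩) Λ
    exact ⟨M, hM0, fun a b A E ha hb hAE hs => hM a b A E ha hb hAE.1 hAE.2.1 hAE.2.2.1
      hAE.2.2.2 hs⟩
  · obtain ⟨ν, hν, h⟩ := slope _ hπ hπ0 D
    obtain ⟨K, δ, hK, hδ, h⟩ := h (zeta 2) hz2
    refine ⟨ν, K, δ, hν, hK, hδ, fun s hs Λ => ?_⟩
    obtain ⟨ρ, hρ⟩ := h (zeta s) (zeta_inv _ hs) (zeta_le _ hs) Λ
    exact ⟨ρ, fun a b A E ha hb hAE hs => hρ a b A E ha hb hAE.1 hAE.2.1 hAE.2.2.1 hAE.2.2.2 hs⟩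

end Pool.Agent.Results.MP_a89d6d_nt.DigitsInOwnBases
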