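import Mathlib
import Pool.Agent.V11115.SixZeta

/-!
# Exponentials of `λ ζ(j)`, `π ^ e ζ(j)`, and linear forms in logarithms

`K` is a number field inside `ℂ`, of degree `d = [K : ℚ]`.  `LogForm K z` says
`z = β₀ + β₁ log α₁ + … + βₖ log αₖ` with algebraic `β₀, α₁, …, αₖ` and `β₁, …, βₖ ∈ K` (`β₀` is an
arbitrary algebraic number, any values of the logarithms).  If `e ^ z` is algebraic then `LogForm K z`.

The main theorem says that for many odd `j` of every window `b < j ≤ s` the numbers `λ_i ζ(j)` are,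
with at most one exception `i`, not of this form, more precisely:

Let `λ_1, …, λ_n` be complex numbers with `λ_i / λ_l ∉ K` for `i ≠ l` (for `K = ℚ`: irrational
quotients), and `W ⊆ ℂ` a `K`-space of dimension `m`.

* (1) If `2 ^ (132 (d (m + n (n - 1)) + 1)) (b + 1)² k³ log (k + 1) ≤ s²` then there are at least `k`
  odd `j` with `b < j ≤ s` such that for all `t = ζ(j) - r - w` with `r ∈ ℚ`, `w ∈ W`:
  at most one of the numbers `e ^ (λ_1 t), …, e ^ (λ_n t)` is algebraic; and if `λ_i t`, `λ_l t` with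
  `i ≠ l` both are linear forms as above then they are algebraic numbers (this is impossible if
  `λ_i / λ_l` is transcendental).
* (2) If all `λ_i` are linear forms as above, e.g. logarithms of algebraic numbers, then the exponent
  `132 (d (m + 1 + n (n - 1) / 2) + 1)` suffices (and `t = ζ(j) - a - w`, `a ∈ K`).
  For example at most one of the numbers `2 ^ ζ(j), 3 ^ ζ(j), 5 ^ ζ(j), …, p_n ^ ζ(j)` is algebraic.
* (3) Let `e_1, …, e_n` be different integers and `c` an integer.  For `k`, `s` as in (1) with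
  `m + 1` instead of `m`, at least `k` odd `j` in the window have the following property: for
  every polynomial `P ∈ K[X]` of degree at most `m` at most one of the numbers
  `π ^ (e_i) (ζ(j) - π ^ c P(π))` is a linear form as above; in particular all but at most one
  of the exponentials `e ^ (π ^ (e_i) (ζ(j) - π ^ c P(π)))` are transcendental.

For fixed `K, W, n` the number `k` is at least `s ^ (2/3 - ε)` for large `s`.

The proof: by the theorem of Roy (strong six exponentials, over a number field `K`: library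
`Pool.Agent.H301R2.SSE.sharp_strong`) the complex `t` such that `λ_i t` and `λ_l t` are linear forms are in a
`K`-space of dimension at most two, except for the case that `λ_i t` is algebraic for all these `t`.
The real points of the sum of these spaces and `W` are of dimension at most
`d (m + n (n - 1))` over `ℚ`, and the theorem of the library on odd zeta values outside given
`ℚ`-subspaces of the real numbers applies (`Pool.Agent.Y926.TW.window_space`).
-/

set_option autoImplicit false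

namespace Pool.Agent.Results.MP_a89d6d_nt.ExponentialsOfZeta

open Module

/-- `z = β₀ + β₁ log α₁ + … + βₖ log αₖ` with algebraic `β₀`, `α_i` and `β_i ∈ K` for `i ≥ 1`. -/
def LogForm (K : IntermediateField ℚ ℂ) (z : ℂ) : Prop :=
  ∃ β : ℂ, IsAlgebraic ℚ β ∧ z - β ∈ Submodule.span K {z : ℂ | IsAlgebraic ℚ (Complex.exp z)}

/-- the value `ζ(j)` of the Riemann zeta function at an integer `j ≥ 2`, as a complex number -/
noncomputable def zeta (j : ℕ) : ℂ := ((∑' n : ℕ, 1 / ((n : ℝ) + 1) ^ j : ℝ) : ℂ)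

/-- for the numbers `λ_i t`: any two which are linear forms are algebraic, and at most one
exponential is algebraic -/
def AtMostOne (K : IntermediateField ℚ ℂ) {n : ℕ} (lam : Fin n → ℂ) (t : ℂ) : Prop :=
  (∀ i l, i ≠ l → LogForm K (lam i * t) → LogForm K (lam l * t) →
    IsAlgebraic ℚ (lam i * t) ∧ IsAlgebraic ℚ (lam l * t)) ∧
  {i | IsAlgebraic ℚ (Complex.exp (lam i * t))}.Subsingleton

theorem result (K : IntermediateField ℚ ℂ) [FiniteDimensional ℚ K] {b k n s : ℕ} (hk : 1 ≤ k) :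
    (∀ (W : Submodule K ℂ) [FiniteDimensional K W] (lam : Fin n → ℂ),
      (∀ i l, i ≠ l → ∀ a : K, lam i ≠ a * lam l) →
      ((2 : ℝ) ^ (132 * (finrank ℚ K * (finrank K W + n * (n - 1)) + 1)) * ((b : ℝ) + 1) ^ 2 *
        (k : ℝ) ^ 3 * Real.log (k + 1) ≤ (s : ℝ) ^ 2 →
        k ≤ Set.ncard {j : ℕ | b < j ∧ j ≤ s ∧ Odd j ∧ ∀ r : ℚ, ∀ w ∈ W,
          AtMostOne K lam (zeta j - r - w)}) ∧
      ((∀ i, LogForm K (lam i)) →
        (2 : ℝ) ^ (132 * (finrank ℚ K * (finrank K W + 1 + n * (n - 1) / 2) + 1)) * ((b : ℝ) + 1) ^ 2 *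
        (k : ℝ) ^ 3 * Real.log (k + 1) ≤ (s : ℝ) ^ 2 →
        k ≤ Set.ncard {j : ℕ | b < j ∧ j ≤ s ∧ Odd j ∧ ∀ a : K, ∀ w ∈ W,
          AtMostOne K lam (zeta j - a - w)})) ∧
    (∀ (e : Fin n → ℤ), Function.Injective e → ∀ (c : ℤ) (m : ℕ),
      (2 : ℝ) ^ (132 * (finrank ℚ K * (m + 1 + n * (n - 1)) + 1)) * ((b : ℝ) + 1) ^ 2 *
        (k : ℝ) ^ 3 * Real.log (k + 1) ≤ (s : ℝ) ^ 2 →
        k ≤ Set.ncard {j : ℕ | b < j ∧ j ≤ s ∧ Odd j ∧ ∀ P : Polynomial K, P.natDegree ≤ m →
          {i : Fin n | LogForm K ((Real.pi : ℂ) ^ (e i) *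
            (zeta j - (Real.pi : ℂ) ^ c * Polynomial.aeval (Real.pi : ℂ) P))}.Subsingleton}) := by
  classical
  refine ⟨fun W _ lam hlam => ⟨fun hs => Pool.Agent.V11115.SixZeta.main K W hk lam hlam hs,
    fun hlog hs => Pool.Agent.V11115.SixZeta.main_logs K W hk lam hlam hlog hs⟩, ?_⟩
  intro e he c m hs
  have hpi : (Real.pi : ℂ) ≠ 0 := by exact_mod_cast Real.pi_ne_zero
  have hpow : ∀ N : ℤ, N ≠ 0 → ¬ IsAlgebraic ℚ ((Real.pi : ℂ) ^ N) := by
    intro N hN h
    have hN' : 0 < N.natAbs := Int.natAbs_pos.2 hN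
    have h1 : IsAlgebraic ℚ ((Real.pi : ℂ) ^ N.natAbs) := by
      rcases Int.natAbs_eq N with h2 | h2
      · rw [h2, zpow_natCast] at h
        exact h
      · rw [h2, zpow_neg, zpow_natCast] at h
        exact (IsAlgebraic.inv_iff).1 h
    exact Pool.Agent.H335R2.piC_transcendental (h1.of_pow hN')
  have hquot : ∀ i l, i ≠ l → ∀ a : ℂ, IsAlgebraic ℚ a →
      (Real.pi : ℂ) ^ (e i) ≠ a * (Real.pi : ℂ) ^ (e l) := by
    intro i l hil a ha h
    apply hpow (e i - e l) (sub_ne_zero.2 fun h0 => hil (he h0))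
    rw [zpow_sub₀ hpi, h, mul_div_assoc, div_self (zpow_ne_zero _ hpi), mul_one]
    exact ha
  set f : Fin (m + 1) → ℂ := fun i => (Real.pi : ℂ) ^ c * (Real.pi : ℂ) ^ (i : ℕ) with hf
  set W : Submodule K ℂ := Submodule.span K (Set.range f) with hW
  have : FiniteDimensional K W := FiniteDimensional.span_of_finite _ (Set.finite_range _)
  have hWd : finrank K W ≤ m + 1 := by
    have := finrank_range_le_card (R := K) f
    simpa [Set.finrank] using this
  have hs' : (2 : ℝ) ^ (132 * (finrank ℚ K * (finrank K W + n * (n - 1)) + 1)) * ((b : ℝ) + 1) ^ 2 *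
        (k : ℝ) ^ 3 * Real.log (k + 1) ≤ (s : ℝ) ^ 2 := by
    refine le_trans ?_ hs
    have h1 : (2 : ℝ) ^ (132 * (finrank ℚ K * (finrank K W + n * (n - 1)) + 1)) ≤
        (2 : ℝ) ^ (132 * (finrank ℚ K * (m + 1 + n * (n - 1)) + 1)) := by
      refine pow_le_pow_right₀ (by norm_num) ?_
      refine Nat.mul_le_mul_left _ (Nat.succ_le_succ (Nat.mul_le_mul_left _ ?_))
      omega
    have h2 : 0 ≤ Real.log ((k : ℝ) + 1) := Real.log_nonneg (by
      have : (0 : ℝ) ≤ k := Nat.cast_nonneg k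
      linarith)
    gcongr
  refine (Pool.Agent.V11115.SixZeta.main K W hk (fun i => (Real.pi : ℂ) ^ (e i))
    (fun i l hil a => hquot i l hil a (Pool.Agent.V11115.SixZeta.K_alg K a)) hs').trans ?_
  refine Set.ncard_le_ncard ?_ ((Set.finite_Iic s).subset fun j hj => hj.2.1)
  rintro j ⟨h1, h2, h3, h4⟩
  refine ⟨h1, h2, h3, fun P hP i hi l hl => ?_⟩
  have hmem : (Real.pi : ℂ) ^ c * Polynomial.aeval (Real.pi : ℂ) P ∈ W := by
    rw [Polynomial.aeval_eq_sum_range' (n := m + 1) (by omega), Finset.mul_sum]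
    refine W.sum_mem fun i hi => ?_
    have h5 : f ⟨i, Finset.mem_range.1 hi⟩ ∈ W := Submodule.subset_span (Set.mem_range_self _)
    have h6 := W.smul_mem (P.coeff i) h5
    have h7 : P.coeff i • f ⟨i, Finset.mem_range.1 hi⟩ =
        (Real.pi : ℂ) ^ c * P.coeff i • (Real.pi : ℂ) ^ i := by
      rw [hf, mul_smul_comm]
    rwa [h7] at h6
  obtain ⟨h8, h9⟩ := h4 0 _ hmem
  simp only [Rat.cast_zero, sub_zero] at h8 h9
  by_contra hil
  by_cases ht : ((∑' n : ℕ, 1 / ((n : ℝ) + 1) ^ j : ℝ) : ℂ) -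
      (Real.pi : ℂ) ^ c * Polynomial.aeval (Real.pi : ℂ) P = 0
  · refine hil (h9 (x := i) ?_ (y := l) ?_)
    · simp only [Set.mem_ofPred_eq]
      rw [ht, mul_zero, Complex.exp_zero]
      exact isAlgebraic_one
    · simp only [Set.mem_ofPred_eq]
      rw [ht, mul_zero, Complex.exp_zero]
      exact isAlgebraic_one
  · obtain ⟨h10, h11⟩ := h8 i l hil hi hl
    have h12 := h10.mul h11.inv
    rw [mul_inv, mul_mul_mul_comm, mul_inv_cancel₀ ht, mul_one] at h12
    exact hquot i l hil _ h12 (by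
      rw [mul_assoc, inv_mul_cancel₀ (zpow_ne_zero _ hpi), mul_one])

end Pool.Agent.Results.MP_a89d6d_nt.ExponentialsOfZeta
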