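import Pool.Agent.V11210.NA.One

/-!
# Near algebraic relations between `π` and arbitrary numbers, in particular odd zeta values
-/

set_option autoImplicit false

namespace Pool.Agent.Results.MP_a89d6d_nt.NearAlgebraicRelations

open Polynomial

/-- the field of the algebraic functions of one variable `X` (over the rational numbers) -/
abbrev AlgFun : Type := AlgebraicClosure (FractionRing ℤ[X])

/-- a polynomial in `X` as an algebraic function -/
noncomputable def fn : ℤ[X] →+* AlgFun :=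
  (algebraMap (FractionRing ℤ[X]) AlgFun).comp (algebraMap ℤ[X] (FractionRing ℤ[X]))

/-- a polynomial `P` in `Y_1, …, Y_r` with coefficients in `ℤ[X]`: total degree in the `Y_i`, and
degree in `X`, at most `D`, all coefficients at most `H` in absolute value -/
def Bounded {r : ℕ} (D : ℕ) (H : ℝ) (P : MvPolynomial (Fin r) ℤ[X]) : Prop :=
  P.totalDegree ≤ D ∧ ∀ m, (P.coeff m).natDegree ≤ D ∧ ∀ i, |((P.coeff m).coeff i : ℝ)| ≤ H

/-- the complex number `P(π, t_1, …, t_r)` -/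
noncomputable def value {r : ℕ} (t : Fin r → ℂ) (P : MvPolynomial (Fin r) ℤ[X]) : ℂ :=
  P.eval₂ (aeval (Real.pi : ℂ) : ℤ[X] →ₐ[ℤ] ℂ).toRingHom t

/-- the algebraic function `P(X, y_1, …, y_r)` -/
noncomputable def onFun {r : ℕ} (y : Fin r → AlgFun) (P : MvPolynomial (Fin r) ℤ[X]) : AlgFun :=
  P.eval₂ fn y

/-- the complex number `P(π, t)` for a polynomial in `Y` with coefficients in `ℤ[X]` -/
noncomputable def value₁ (t : ℂ) (P : ℤ[X][X]) : ℂ :=
  P.eval₂ (aeval (Real.pi : ℂ) : ℤ[X] →ₐ[ℤ] ℂ).toRingHom t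

/-- the largest absolute value of a coefficient -/
noncomputable def ht (P : ℤ[X][X]) : ℕ :=
  P.support.sup fun j => (P.coeff j).support.sup fun i => ((P.coeff j).coeff i).natAbs

/-- the irreducible `P` of degree at most `D` in `X` and in `Y`, with positive leading coefficient,
with `|P(π, t)| ≤ ht(P) ^ (-w)` and `ht(P) ≤ B` -/
def near (t : ℂ) (D : ℕ) (w B : ℝ) : Set ℤ[X][X] :=
  {P | (Irreducible P ∧ P.natDegree ≤ D ∧ (∀ j, (P.coeff j).natDegree ≤ D) ∧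
    0 < P.leadingCoeff.leadingCoeff) ∧ ‖value₁ t P‖ ≤ (ht P : ℝ) ^ (-w) ∧ (ht P : ℝ) ≤ B}

/-- the number `ζ(s)` -/
noncomputable def zeta (s : ℕ) : ℝ := ∑' n : ℕ, 1 / ((n : ℝ) + 1) ^ s

lemma summable_zeta (s : ℕ) (hs : 2 ≤ s) : Summable fun n : ℕ => 1 / ((n : ℝ) + 1) ^ s := by
  have h1 := (Real.summable_one_div_nat_pow (p := s)).2 (by omega)
  have h2 := (summable_nat_add_iff 1).2 h1
  refine h2.congr fun n => ?_
  push_cast
  rfl

lemma zeta_le (s : ℕ) (hs : 2 ≤ s) : ‖(zeta s : ℂ)‖ ≤ zeta 2 := by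
  have h0 : 0 ≤ zeta s := tsum_nonneg fun n => by positivity
  rw [Complex.norm_real, Real.norm_eq_abs, abs_of_nonneg h0]
  refine (summable_zeta s hs).tsum_le_tsum (fun n => ?_) (summable_zeta 2 le_rfl)
  have h1 : (1 : ℝ) ≤ (n : ℝ) + 1 := by
    have : (0 : ℝ) ≤ n := Nat.cast_nonneg n
    linarith
  exact one_div_le_one_div_of_le (by positivity) (pow_le_pow_right₀ h1 hs)

open Pool.Agent.V11210.NA in
/-- **Near algebraic relations between `π` and arbitrary numbers.**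
(1) For all `r` and `D` there is `κ` such that for all `T` there is `c > 0` with: for ALL complex
numbers `t_1, …, t_r` of absolute value at most `T` and all `H ≥ 1` there are algebraic functions
`y_1, …, y_r` of one variable `X` such that every polynomial `P(X, Y_1, …, Y_r)` of degree at most `D`
with integer coefficients of absolute value at most `H` and `|P(π, t_1, …, t_r)| < c H ^ (-κ)` satisfies
the exact relation `P(X, y_1, …, y_r) = 0`.
(2) In particular, with constants which depend only on `r` and `D`: at every scale `H` the zeta values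
`ζ(s_1), …, ζ(s_r)` satisfy `|P(π, ζ(s_1), …, ζ(s_r))| ≥ c H ^ (-κ)` for all these `P` apart from those
that vanish on one point `(X, y_1, …, y_r)` of algebraic functions.
(3) One number: at every scale all the near relations between `π` and `t` are multiples of one
irreducible polynomial, of positive degree in `Y`.
(4) The irreducible near relations between `π` and `t` are sparse. -/
theorem result :
    (∀ r D : ℕ, ∃ κ : ℝ, 0 < κ ∧ ∀ T : ℝ, ∃ c : ℝ, 0 < c ∧ ∀ t : Fin r → ℂ, (∀ i, ‖t i‖ ≤ T) →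
      ∀ H : ℝ, 1 ≤ H → ∃ y : Fin r → AlgFun, ∀ P : MvPolynomial (Fin r) ℤ[X], Bounded D H P →
        ‖value t P‖ < c * H ^ (-κ) → onFun y P = 0) ∧
    (∀ r D : ℕ, ∃ κ c : ℝ, 0 < κ ∧ 0 < c ∧ ∀ s : Fin r → ℕ, (∀ i, 2 ≤ s i) →
      ∀ H : ℝ, 1 ≤ H → ∃ y : Fin r → AlgFun, ∀ P : MvPolynomial (Fin r) ℤ[X], Bounded D H P →
        onFun y P ≠ 0 → c * H ^ (-κ) ≤ ‖value (fun i => (zeta (s i) : ℂ)) P‖) ∧
    (∀ D : ℕ, ∃ κ : ℝ, 0 < κ ∧ ∀ T : ℝ, ∃ c : ℝ, 0 < c ∧ ∀ t : ℂ, ‖t‖ ≤ T → ∀ H : ℝ, 1 ≤ H →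
      ∃ F : ℤ[X][X], Irreducible F ∧ 0 < F.natDegree ∧ ∀ P : ℤ[X][X], P.natDegree ≤ D →
        (∀ j, (P.coeff j).natDegree ≤ D) → (∀ j i, |((P.coeff j).coeff i : ℝ)| ≤ H) →
        ‖value₁ t P‖ < c * H ^ (-κ) → F ∣ P) ∧
    (∀ D : ℕ, ∃ κ : ℝ, 0 < κ ∧ ∀ (t : ℂ) (w ρ : ℝ), 1 < ρ → ρ * κ < w → ∃ C : ℝ, ∀ B : ℝ, 3 ≤ B →
      (near t D w B).Finite ∧ ((near t D w B).ncard : ℝ) ≤ Real.log (Real.log B) / Real.log ρ + C) := by
  have hπ := Pool.Agent.TH456.TM.measT_pi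
  refine ⟨fun r D => near_core fn fn_inj _ hπ r D, fun r D => ?_, fun D => principal _ hπ D,
    fun D => ?_⟩
  · obtain ⟨κ, hκ, h⟩ := near_core fn fn_inj _ hπ r D
    obtain ⟨c, hc, h⟩ := h (zeta 2)
    refine ⟨κ, c, hκ, hc, fun s hs H hH => ?_⟩
    obtain ⟨y, hy⟩ := h (fun i => (zeta (s i) : ℂ)) (fun i => zeta_le _ (hs i)) H hH
    refine ⟨y, fun P hP hP0 => ?_⟩
    by_contra hcon
    push Not at hcon
    exact hP0 (hy P hP hcon)
  · obtain ⟨κ, hκ, h⟩ := Pool.Agent.TH456.TM.core _ hπ (D + 1) (by omega)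
    refine ⟨κ, hκ, fun t w ρ hρ hw => ?_⟩
    obtain ⟨C, hC⟩ := Pool.Agent.TH456.TM.sparse_alg _ (D + 1) κ hκ h t w ρ hρ
      ((lt_div_iff₀ hκ).2 hw)
    refine ⟨C, fun B hB => ?_⟩
    obtain ⟨h1, h2⟩ := hC B hB
    have hsub : near t D w B ⊆ {P ∈ {P : ℤ[X][X] | P ∈ Pool.Agent.TH456.TM.IR (D + 1) ∧
        ‖Pool.Agent.TH456.TM.vl (Real.pi : ℂ) t P‖ ≤ (Pool.Agent.TH456.TM.hgt P : ℝ) ^ (-w)} |
        (Pool.Agent.TH456.TM.hgt P : ℝ) ≤ B} := by
      rintro P ⟨⟨a1, a2, a3, a4⟩, a5, a6⟩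
      refine ⟨⟨⟨a1, a2.trans (by omega), fun j => (a3 j).trans (by omega), a4⟩, ?_⟩, a6⟩
      rw [Pool.Agent.TH456.TM.vl, eval_map]
      exact a5
    refine ⟨h1.subset hsub, le_trans ?_ h2⟩
    exact_mod_cast Set.ncard_le_ncard hsub h1

end Pool.Agent.Results.MP_a89d6d_nt.NearAlgebraicRelations
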