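import Mathlib
import Pool.Agent.V11133.NR.Window

/-!
# The rank of the near relations between the odd zeta values of a window and arbitrary numbers

Let `K ≥ 1` and `2 ^ (132 (D + 1)) (b + 1)² K³ log (K + 1) ≤ s²` (so `D` may be of the order of
`log (s / (b + 1))`, and `K` of the order `(s² / log s) ^ (1/3)` for fixed `b` and `D`). Let `T` be any set
of odd numbers in `(b, s]` which contains all but at most `K - 1` of the odd numbers in `(b, s]`, and let
`t_1, ..., t_r` be any real numbers, for example powers of `π` or products of zeta values. Consider the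
integer relations between the `1 + |T| + r` numbers `1`, `ζ(j)` (`j ∈ T`), `t_1, ..., t_r`. At every scale
`X ≥ 1` the relations with integer coefficients of absolute value at most `X` whose value is smaller than
`c X ^ (-κ)` have rank at most `|T| + r - D - 1`; here `κ = M (D² + 3 D + 3)`, `M = |T| + r - D`, and
`c > 0` does not depend on `X` and on `t_1, ..., t_r`.

In particular `1`, `ζ(j)` (`j ∈ T`), `t_1, ..., t_r` always span a rational vector space of dimension at
least `D + 2`. The theorem is a quantitative form of this fact, at every scale, dual to the bounds for the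
distances of zeta values to vector spaces in `OutsideSubspacesTwoThirds`, and uniform in the numbers `t_i`.

Proof. By Cramer's rule `M` independent near relations give a rational parametrisation of all the numbers by
`D` of them, with numerators and denominators of size at most `C X ^ M` (`Pool.Agent.V11133.NR.transfer`;
a minor which avoids the column of `1` is found by an exchange of one column). Dirichlet's theorem for the
`D` numbers gives a common multiplier `N` for which all `N ζ(j)`, `j ∈ T`, are closer than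
`N ^ (-1/(D+1))` to integers. This contradicts the theorem on simultaneous approximation in windows behind
`MP_c2395a_nt.OddZetaTwoThirds` (`Pool.Agent.Y926.TW.window_core`).
-/

set_option autoImplicit false

namespace Pool.Agent.Results.MP_a89d6d_nt.RankInWindows

/-- **The rank of the near relations in a window.** `v k` is the vector of the coefficients of the `k`-th
relation: `(v k).1` of `1`, `(v k).2.1 j` of `ζ(j)`, `j ∈ T`, and `(v k).2.2 i` of `t_i`. -/
theorem result (b K s D : ℕ) (hb : 1 ≤ b) (hK : 1 ≤ K)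
    (hs : (2 : ℝ) ^ (132 * (D + 1)) * ((b : ℝ) + 1) ^ 2 * (K : ℝ) ^ 3 * Real.log (K + 1) ≤ (s : ℝ) ^ 2)
    (T : Finset ℕ) (hT : ∀ j ∈ T, b < j ∧ j ≤ s ∧ Odd j)
    (hTK : {j : ℕ | b < j ∧ j ≤ s ∧ Odd j ∧ j ∉ T}.ncard < K)
    (r M : ℕ) (hM : M + D = T.card + r) :
    ∃ c : ℝ, 0 < c ∧ ∀ (t : Fin r → ℝ) (X : ℝ), 1 ≤ X →
      ∀ v : Fin M → ℤ × (T → ℤ) × (Fin r → ℤ), LinearIndependent ℤ v →
        (∀ k, |((v k).1 : ℝ)| ≤ X ∧ (∀ j, |((v k).2.1 j : ℝ)| ≤ X) ∧
          ∀ i, |((v k).2.2 i : ℝ)| ≤ X) →
        ∃ k, c / X ^ (M * (D ^ 2 + 3 * D + 3)) ≤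
          |((v k).1 : ℝ) + ∑ j : T, ((v k).2.1 j : ℝ) * (∑' n : ℕ, 1 / ((n : ℝ) + 1) ^ (j : ℕ)) +
            ∑ i, ((v k).2.2 i : ℝ) * t i| := by
  classical
  have h1 : (((Finset.Icc (b + 1) s).filter Odd) \ T).card < K := by
    refine lt_of_eq_of_lt ?_ hTK
    rw [← Set.ncard_coe_finset]
    congr 1
    ext j
    simp only [Finset.coe_sdiff, Finset.coe_filter, Finset.mem_Icc, Set.mem_diff, Set.mem_setOf_eq,
      Finset.mem_coe]
    constructor
    · rintro ⟨⟨⟨a1, a2⟩, a3⟩, a4⟩
      exact ⟨by omega, a2, a3, a4⟩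
    · rintro ⟨a1, a2, a3, a4⟩
      exact ⟨⟨⟨by omega, a2⟩, a3⟩, a4⟩
  obtain ⟨c, hc, h⟩ := Pool.Agent.V11133.NR.near_rank hK hs T h1 r M hM
  refine ⟨c, hc, fun t X hX v hv hvX => ?_⟩
  exact h t X hX (fun k => (v k).1) (fun k => (v k).2.1) (fun k => (v k).2.2) hv
    (fun k => (hvX k).1) (fun k => (hvX k).2.1) (fun k => (hvX k).2.2)

end Pool.Agent.Results.MP_a89d6d_nt.RankInWindows
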